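import Mathlib
import Pool.Agent.Helper50.Basilica.Defs
import Pool.Agent.Helper50.Basilica.Main

set_option autoImplicit false

open Filter Topology

namespace Pool.Agent.Results.MP_0936a9_nt.FixedPointLimit

open Pool.Agent.Helper50.Basilica

/-- The proportion `δ_m` of elements of the Galois group `G_m` over `ℚ` of `f^m(x) - 1`,
`f(x) = x ^ 2 - 1`, which fix at least one root of `f^m(x) - 1`, tends to `0` as `m → ∞`. -/
theorem result : Tendsto delta atTop (𝓝 0) :=
  tendsto_delta

end Pool.Agent.Results.MP_0936a9_nt.FixedPointLimit
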